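import Pool.Agent.H83.G.Targets2

/-!
CPC: pieces in caps of fixed radius stay in the class.
-/

set_option autoImplicit false

namespace Pool.Agent.H27.G.CPC

open MeasureTheory Set
open scoped ENNReal NNReal RealInnerProductSpace
open Pool.Agent.H83.G

variable {m : ℕ}

private theorem lo_sub (η : E m) (s : ℝ) (z z' : Z m) :
    Lo η s (z - z') = Lo η s z - Lo η s z' := by
  unfold Lo
  refine Prod.ext ?_ (Prod.ext ?_ ?_)
  · simp only [Prod.fst_sub, Prod.snd_sub, inner_sub_left]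
    ring
  · simp only [Prod.fst_sub, Prod.snd_sub]
    module
  · simp only [Prod.snd_sub]
    ring

private theorem e_cont : Continuous e := by
  unfold e
  fun_prop

private theorem ph_cont : Continuous fun q : Z m × Z m => ph q.1 q.2 := by
  unfold ph
  fun_prop

private theorem tf_meas {G : Z m → ℂ} (hG : TC G) : Measurable (TF G) := by
  have h1 : Continuous fun q : Z m × Z m => e (ph q.1 q.2) * G q.2 :=
    (e_cont.comp ph_cont).mul (hG.1.continuous.comp continuous_snd)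
  exact (h1.stronglyMeasurable.integral_prod_right').measurable

private theorem tp_swap (φ ψ : E m → ℂ) (η c : E m) (s t : ℝ) (G : Z m → ℂ) (z : Z m) :
    TP φ η s (fun ζ => cp ψ c t ζ * G ζ) z = TP ψ c t (fun ζ => cp φ η s ζ * G ζ) z := by
  unfold TP
  congr 1
  funext ζ
  ring

private theorem tp_smul (a : ℂ) (φ : E m → ℂ) (η : E m) (s : ℝ) (G : Z m → ℂ) (z : Z m) :
    TP (fun x => a * φ x) η s G z = a * TP φ η s G z := by
  unfold TP TF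
  rw [← integral_const_mul]
  congr 1
  funext ζ
  unfold cp
  ring

private theorem rg_low {κ ρ : ℝ} (hκ : κ ≤ 1 / 2) {ζ : Z m} (h : ζ ∈ Rg m κ ρ) :
    1 / 4 ≤ ζ.1 ∧ ζ.1 ≤ 8 ∧ ‖ζ.1⁻¹ • ζ.2.1‖ ≤ 3 / 2 := by
  obtain ⟨h1, h2, h3, -⟩ := h
  have h4 : 0 < ζ.1 := by linarith
  refine ⟨by linarith, by linarith, ?_⟩
  rw [norm_smul, norm_inv, Real.norm_eq_abs, abs_of_pos h4, inv_mul_le_iff₀ h4]
  nlinarith

theorem pf_CPC (hWM : T_WM) (hAVG : T_AVG) (hPUB : T_PUB) (hCPS : T_CPS) (hWT1 : T_WT1) :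
    T_CPC := by
  intro m L β K hβ hK
  obtain ⟨Cb, hCb1, hCb⟩ := hPUB m (2 * m + 6) β hβ
  obtain ⟨Cw, hCw⟩ := hWM m (m + 3) (2 * m + 6) ((4 * m + 7) * K) (by omega) (by positivity)
  obtain ⟨Ca, hCa⟩ := hAVG m (m + 3) le_rfl
  have hK0 : 0 < K := by linarith
  have hCb0 : 0 < Cb := by linarith
  obtain ⟨B, hB⟩ : ∃ B : ℝ, B = 2 ^ (m + 3) * Cb ^ 2 * Cw * Ca := ⟨_, rfl⟩
  have hB0 : 0 ≤ B := by rw [hB]; positivity
  refine ⟨1 + B, by linarith, fun κ R A G c hκ0 hκ hR hA hc hG => ?_⟩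
  obtain ⟨hG1, hG2, hG3⟩ := hG
  have hG4 : ∀ ζ, G ζ ≠ 0 → 1 / 4 ≤ ζ.1 := fun ζ hζ => (rg_low hκ (hG2 ζ hζ)).1
  refine ⟨hCPS m β c K⁻¹ G hβ.1 (by positivity) hG1 hG4, fun ζ hζ => hG2 ζ fun h => hζ (by
    beta_reduce
    rw [h, mul_zero]), fun φ hφ η s r z₀ hs hs1 hr hrR => ?_⟩
  have hr0 : 0 < r := by linarith
  obtain ⟨S, hS⟩ : ∃ S : ℝ, S = A ^ 2 * (R * s ^ 2 / r) ^ m * (r / s) ^ (m + 2) := ⟨_, rfl⟩
  have hS0 : 0 ≤ S := by
    rw [hS]
    positivity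
  have hgoal : ∀ X : ℝ≥0∞, X ≤ ENNReal.ofReal (B * S) → X ≤ ENNReal.ofReal (((1 + B) * A) ^ 2 *
      (R * s ^ 2 / r) ^ m * (r / s) ^ (m + 2)) := by
    intro X hX
    refine hX.trans (ENNReal.ofReal_le_ofReal ?_)
    have h1 : ((1 + B) * A) ^ 2 * (R * s ^ 2 / r) ^ m * (r / s) ^ (m + 2) = (1 + B) ^ 2 * S := by
      rw [hS]
      ring
    rw [h1]
    refine mul_le_mul_of_nonneg_right ?_ hS0
    nlinarith
  apply hgoal
  by_cases hη : 3 < ‖η‖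
  · -- the cap does not meet the support
    have h1 : ∀ z, TP φ η s (fun ζ => cp β c K⁻¹ ζ * G ζ) z = 0 := by
      intro z
      unfold TP TF
      have h2 : (fun ζ : Z m => e (ph z ζ) * (cp φ η s ζ * (cp β c K⁻¹ ζ * G ζ))) =
          fun _ => 0 := by
        funext ζ
        by_cases hζ : G ζ = 0
        · rw [hζ, mul_zero, mul_zero, mul_zero]
        · have h3 := (rg_low hκ (hG2 ζ hζ)).2.2
          have h4 : φ (s⁻¹ • (ζ.1⁻¹ • ζ.2.1 - η)) = 0 := by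
            refine hφ.2.1 _ ?_
            rw [norm_smul, norm_inv, Real.norm_eq_abs, abs_of_pos hs, le_inv_mul_iff₀ hs]
            have h5 : ‖η‖ ≤ ‖ζ.1⁻¹ • ζ.2.1 - η‖ + ‖ζ.1⁻¹ • ζ.2.1‖ := by
              calc ‖η‖ = ‖ζ.1⁻¹ • ζ.2.1 - (ζ.1⁻¹ • ζ.2.1 - η)‖ := by rw [sub_sub_cancel]
                _ ≤ ‖ζ.1⁻¹ • ζ.2.1‖ + ‖ζ.1⁻¹ • ζ.2.1 - η‖ := norm_sub_le _ _
                _ = _ := add_comm _ _
            linarith
          unfold cp
          rw [h4, zero_mul, mul_zero]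
      rw [h2, integral_zero]
    simp only [h1]
    simp
  · rw [not_lt] at hη
    obtain ⟨Gs, hGs⟩ : ∃ Gs : Z m → ℂ, Gs = fun ζ => cp φ η s ζ * G ζ := ⟨_, rfl⟩
    have hGsT : TC Gs := by
      rw [hGs]
      exact hCPS m φ η s G hφ.1 hs hG1 hG4
    have hGsS : ∀ ζ, Gs ζ ≠ 0 → 1 / 4 ≤ ζ.1 ∧ ζ.1 ≤ 8 := by
      intro ζ hζ
      have h1 : G ζ ≠ 0 := fun h => hζ (by rw [hGs]; beta_reduce; rw [h, mul_zero])
      exact ⟨(rg_low hκ (hG2 ζ h1)).1, (rg_low hκ (hG2 ζ h1)).2.1⟩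
    have hcls : ∀ z₁, ∫⁻ z in pl η s r z₁, ‖TF Gs z‖ₑ ^ 2 ≤ ENNReal.ofReal S := by
      intro z₁
      rw [hS, hGs]
      exact hG3 φ hφ η s r z₁ hs hs1 hr hrR
    obtain ⟨x, hx⟩ : ∃ x : Z m, x = r⁻¹ • Lo η s z₀ := ⟨_, rfl⟩
    have hwm := hCw (fun x => ((Cb⁻¹ : ℝ) : ℂ) * β x) hCb η c s K⁻¹ r x Gs hs (by positivity) hr
      (by
        have h1 : (4 * (m : ℝ) + 7) * K * r * K⁻¹ = (4 * m + 7) * r := by field_simp
        rw [h1]
        nlinarith [Nat.cast_nonneg (α := ℝ) m]) (by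
        have h1 : (4 * (m : ℝ) + 7) * K * r * K⁻¹ = (4 * m + 7) * r := by field_simp
        rw [h1]
        have h2 : ‖c - η‖ ≤ ‖c‖ + ‖η‖ := norm_sub_le _ _
        nlinarith [Nat.cast_nonneg (α := ℝ) m]) hGsT hGsS
    have havg := hCa (fun z => ‖TF Gs z‖ₑ ^ 2) η s r 1 x (ENNReal.ofReal S)
      ((tf_meas hGsT).enorm.pow_const 2) hs hr0 one_pos le_rfl hcls
    simp only [one_smul, inv_one, one_pow, ENNReal.ofReal_one, mul_one] at havg
    obtain ⟨w1, -, -, w4, -, -, -⟩ := hWT1 m (m + 3)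
    -- lower bound for the weight on the plank
    have hlow : ∀ z ∈ pl η s r z₀, (1 : ℝ≥0∞) ≤ ENNReal.ofReal (2 ^ (m + 3)) *
        ENNReal.ofReal (wt (m + 3) (r⁻¹ • Lo η s z - x)) := by
      intro z hz
      rw [← ENNReal.ofReal_mul (by positivity), ENNReal.one_le_ofReal]
      have h1 : r⁻¹ • Lo η s z - x = r⁻¹ • Lo η s (z - z₀) := by
        rw [hx, lo_sub, smul_sub]
      have h2 : ‖r⁻¹ • Lo η s z - x‖ ≤ 1 := by
        rw [h1, norm_smul, norm_inv, Real.norm_eq_abs, abs_of_pos hr0, inv_mul_le_iff₀ hr0,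
          mul_one]
        exact hz
      unfold wt
      rw [← div_eq_mul_inv, one_le_div (by positivity)]
      exact pow_le_pow_left₀ (by positivity) (by linarith) _
    have htp : ∀ z, ‖TP φ η s (fun ζ => cp β c K⁻¹ ζ * G ζ) z‖ₑ ^ 2 =
        ENNReal.ofReal (Cb ^ 2) *
          ‖TP (fun x => ((Cb⁻¹ : ℝ) : ℂ) * β x) c K⁻¹ Gs z‖ₑ ^ 2 := by
      intro z
      rw [tp_swap, ← hGs, tp_smul, enorm_mul, mul_pow, ← mul_assoc]
      have h1 : ENNReal.ofReal (Cb ^ 2) * ‖((Cb⁻¹ : ℝ) : ℂ)‖ₑ ^ 2 = 1 := by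
        rw [← ofReal_norm, Complex.norm_real, Real.norm_eq_abs, abs_of_pos (inv_pos.2 hCb0),
          ← ENNReal.ofReal_pow (by positivity), ← ENNReal.ofReal_mul (by positivity),
          ← mul_pow, mul_inv_cancel₀ hCb0.ne', one_pow, ENNReal.ofReal_one]
      rw [h1, one_mul]
    have hmeas : MeasurableSet (pl η s r z₀) := by
      have h1 : Continuous fun z : Z m => ‖Lo η s (z - z₀)‖ := by
        unfold Lo
        fun_prop
      exact measurableSet_le h1.measurable measurable_const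
    calc ∫⁻ z in pl η s r z₀, ‖TP φ η s (fun ζ => cp β c K⁻¹ ζ * G ζ) z‖ₑ ^ 2
        ≤ ∫⁻ z in pl η s r z₀, ENNReal.ofReal (Cb ^ 2) * ENNReal.ofReal (2 ^ (m + 3)) *
          (‖TP (fun x => ((Cb⁻¹ : ℝ) : ℂ) * β x) c K⁻¹ Gs z‖ₑ ^ 2 *
            ENNReal.ofReal (wt (m + 3) (r⁻¹ • Lo η s z - x))) := by
          refine setLIntegral_mono' hmeas fun z hz => ?_
          rw [htp]
          calc ENNReal.ofReal (Cb ^ 2) * ‖TP (fun x => ((Cb⁻¹ : ℝ) : ℂ) * β x) c K⁻¹ Gs z‖ₑ ^ 2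
              = ENNReal.ofReal (Cb ^ 2) *
                ‖TP (fun x => ((Cb⁻¹ : ℝ) : ℂ) * β x) c K⁻¹ Gs z‖ₑ ^ 2 * 1 := (mul_one _).symm
            _ ≤ ENNReal.ofReal (Cb ^ 2) *
                ‖TP (fun x => ((Cb⁻¹ : ℝ) : ℂ) * β x) c K⁻¹ Gs z‖ₑ ^ 2 *
                (ENNReal.ofReal (2 ^ (m + 3)) *
                  ENNReal.ofReal (wt (m + 3) (r⁻¹ • Lo η s z - x))) :=
                mul_le_mul' le_rfl (hlow z hz)
            _ = _ := by ring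
      _ ≤ ∫⁻ z, ENNReal.ofReal (Cb ^ 2) * ENNReal.ofReal (2 ^ (m + 3)) *
          (‖TP (fun x => ((Cb⁻¹ : ℝ) : ℂ) * β x) c K⁻¹ Gs z‖ₑ ^ 2 *
            ENNReal.ofReal (wt (m + 3) (r⁻¹ • Lo η s z - x))) := setLIntegral_le_lintegral _ _
      _ = ENNReal.ofReal (Cb ^ 2) * ENNReal.ofReal (2 ^ (m + 3)) *
          ∫⁻ z, ‖TP (fun x => ((Cb⁻¹ : ℝ) : ℂ) * β x) c K⁻¹ Gs z‖ₑ ^ 2 *
            ENNReal.ofReal (wt (m + 3) (r⁻¹ • Lo η s z - x)) :=
          lintegral_const_mul' _ _ (ENNReal.mul_ne_top ENNReal.ofReal_ne_top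
            ENNReal.ofReal_ne_top)
      _ ≤ ENNReal.ofReal (Cb ^ 2) * ENNReal.ofReal (2 ^ (m + 3)) *
          (Cw * (Ca * ENNReal.ofReal S)) :=
          mul_le_mul' le_rfl (hwm.trans (mul_le_mul' le_rfl havg))
      _ = ENNReal.ofReal (B * S) := by
          rw [hB, ← ENNReal.ofReal_coe_nnreal (p := Cw), ← ENNReal.ofReal_coe_nnreal (p := Ca),
            ← ENNReal.ofReal_mul (by positivity), ← ENNReal.ofReal_mul (by positivity),
            ← ENNReal.ofReal_mul (by positivity), ← ENNReal.ofReal_mul (by positivity)]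
          congr 1
          ring

end Pool.Agent.H27.G.CPC
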